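import Pool.Agent.H731R3.Cardy.CardyF

/-!
Subsequential limits of monotone families with increments comparable to those of Cardy's function:
existence, absolute continuity, bounds for the density.
-/

set_option autoImplicit false

namespace Pool.Agent.V11321.LL

open MeasureTheory Filter Topology

/-- A subsequence along which a sequence of bounded functions converges at every rational. -/
theorem rat_subseq (F : ℕ → ℝ → ℝ) (h0 : ∀ n b, 0 ≤ F n b) (h1 : ∀ n b, F n b ≤ 1) :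
    ∃ ψ : ℕ → ℕ, StrictMono ψ ∧ ∀ q : ℚ, ∃ l : ℝ, Tendsto (fun j => F (ψ j) q) atTop (𝓝 l) := by
  obtain ⟨a, -, ψ, hψ, hlim⟩ := (isCompact_univ (X := ℚ → Set.Icc (0:ℝ) 1)).tendsto_subseq
    (x := fun (n : ℕ) (q : ℚ) => (⟨F n (q:ℝ), h0 n q, h1 n q⟩ : Set.Icc (0:ℝ) 1)) (fun n => Set.mem_univ _)
  refine ⟨ψ, hψ, fun q => ⟨a q, ?_⟩⟩
  have h2 := (tendsto_pi_nhds.1 hlim) q
  exact (continuous_subtype_val.tendsto _).comp h2

/-- Convergence at every point. -/
theorem all_conv {F : ℕ → ℝ → ℝ} {H : ℝ → ℝ} {c C : ℝ} (hc : 0 < c) (hC : 0 < C)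
    (hH : ContinuousOn H (Set.Ici 0)) (hHm : MonotoneOn H (Set.Ici 0))
    (hinc : ∀ b b' : ℝ, 0 ≤ b → b < b' → ∀ᶠ n in atTop, c * (H b' - H b) ≤ F n b' - F n b ∧
      F n b' - F n b ≤ C * (H b' - H b))
    (hq : ∀ q : ℚ, ∃ l : ℝ, Tendsto (fun j => F j q) atTop (𝓝 l)) {b : ℝ} (hb : 0 ≤ b) :
    ∃ l : ℝ, Tendsto (fun j => F j b) atTop (𝓝 l) := by
  have key : ∀ ε : ℝ, 0 < ε → ∃ q : ℚ, ∀ᶠ n in atTop, |F n b - F n q| < ε := by
    intro ε hε
    rcases hb.eq_or_lt with hb0 | hb0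
    · refine ⟨0, Eventually.of_forall fun n => ?_⟩
      rw [← hb0]
      simpa using hε
    · have h1 : ContinuousWithinAt H (Set.Ici 0) b := hH b hb
      have h2 : Tendsto H (𝓝[<] b) (𝓝 (H b)) := by
        have h3 : 𝓝[<] b ≤ 𝓝[Set.Ici 0] b := by
          have : 𝓝[Set.Ici 0] b = 𝓝 b := nhdsWithin_eq_nhds.2 (Ici_mem_nhds hb0)
          rw [this]
          exact nhdsWithin_le_nhds
        exact h1.mono_left h3
      have h4 : ∀ᶠ x in 𝓝[<] b, C * (H b - H x) < ε := by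
        have h5 : Tendsto (fun x => C * (H b - H x)) (𝓝[<] b) (𝓝 (C * (H b - H b))) :=
          (tendsto_const_nhds.sub h2).const_mul C
        rw [sub_self, mul_zero] at h5
        exact h5.eventually (eventually_lt_nhds hε)
      have h6 : ∀ᶠ x in 𝓝[<] b, x ∈ Set.Ioo 0 b := Ioo_mem_nhdsLT hb0
      obtain ⟨x, hx1, hx2⟩ := (h4.and h6).exists
      obtain ⟨q, hq1, hq2⟩ := exists_rat_btwn hx2.2
      refine ⟨q, ?_⟩
      have hq0 : (0:ℝ) ≤ q := (hx2.1.le).trans hq1.le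
      filter_upwards [hinc q b hq0 hq2] with n hn
      have h7 : H x ≤ H q := hHm hx2.1.le hq0 hq1.le
      have h8 : H q ≤ H b := hHm hq0 hb hq2.le
      have h9 : 0 ≤ F n b - F n q := (mul_nonneg hc.le (by linarith)).trans hn.1
      rw [abs_of_nonneg h9]
      calc F n b - F n q ≤ C * (H b - H q) := hn.2
        _ ≤ C * (H b - H x) := mul_le_mul_of_nonneg_left (by linarith) hC.le
        _ < ε := hx1
  apply cauchySeq_tendsto_of_complete
  rw [Metric.cauchySeq_iff']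
  intro ε hε
  obtain ⟨q, h1⟩ := key (ε/4) (by positivity)
  obtain ⟨l, hl⟩ := hq q
  have h2 : ∀ᶠ n in atTop, |F n q - l| < ε/4 := by
    have := (Metric.tendsto_nhds.1 hl) (ε/4) (by positivity)
    simpa [Real.dist_eq] using this
  obtain ⟨N, hN⟩ := eventually_atTop.1 (h1.and h2)
  refine ⟨N, fun n hn => ?_⟩
  obtain ⟨a1, a2⟩ := hN n hn
  obtain ⟨b1, b2⟩ := hN N le_rfl
  rw [Real.dist_eq]
  rw [abs_lt] at a1 a2 b1 b2 ⊢
  constructor <;> linarith

/-- Cardy's density, without the constant -/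
noncomputable def gg (u : ℝ) : ℝ := u ^ (-(2/3) : ℝ) * (1 - u) ^ (-(2/3) : ℝ)

/-- Cardy's function -/
noncomputable def cd (x : ℝ) : ℝ :=
  (∫ u in (0 : ℝ)..x, u ^ (-(2/3) : ℝ) * (1 - u) ^ (-(2/3) : ℝ)) /
    ∫ u in (0 : ℝ)..1, u ^ (-(2/3) : ℝ) * (1 - u) ^ (-(2/3) : ℝ)

/-- the constant -/
noncomputable def BB : ℝ := ∫ u in (0 : ℝ)..1, u ^ (-(2/3) : ℝ) * (1 - u) ^ (-(2/3) : ℝ)

theorem BB_pos : 0 < BB := H731C.CardyAux.total_pos

theorem gg_int : IntervalIntegrable gg volume 0 1 :=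
  (H731C.CardyAux.g_int (x := 1/2) (by norm_num) (by norm_num)).trans
    (H731C.CardyAux.g_int' (x := 1/2) (by norm_num) (by norm_num))

theorem gg_int_sub {x : ℝ} (h0 : 0 ≤ x) (h1 : x ≤ 1) : IntervalIntegrable gg volume 0 x :=
  gg_int.mono_set (by rw [Set.uIcc_of_le h0, Set.uIcc_of_le zero_le_one];
                      exact Set.Icc_subset_Icc_right h1)

theorem gg_pos {u : ℝ} (h0 : 0 < u) (h1 : u < 1) : 0 < gg u := by
  unfold gg
  have : 0 < 1 - u := by linarith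
  positivity

theorem cd_eq (x : ℝ) : cd x = (∫ u in (0:ℝ)..x, gg u) / BB := rfl

theorem cd_sub {x y : ℝ} (hx0 : 0 ≤ x) (hxy : x ≤ y) (hy : y ≤ 1) :
    cd y - cd x = (∫ u in x..y, gg u) / BB := by
  rw [cd_eq, cd_eq, ← sub_div]
  congr 1
  exact intervalIntegral.integral_interval_sub_left (gg_int_sub (hx0.trans hxy) hy)
    (gg_int_sub hx0 (hxy.trans hy))

theorem cd_mono : MonotoneOn cd (Set.Icc 0 1) := by
  intro x hx y hy hxy
  have h1 := cd_sub hx.1 hxy hy.2
  have h2 : 0 ≤ ∫ u in x..y, gg u := by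
    apply intervalIntegral.integral_nonneg hxy
    intro u hu
    unfold gg
    have h3 : 0 ≤ u := hx.1.trans hu.1
    have h4 : 0 ≤ 1 - u := by linarith [hu.2, hy.2]
    positivity
  have h3 : 0 ≤ (∫ u in x..y, gg u) / BB := div_nonneg h2 BB_pos.le
  linarith

theorem cd_ac {x : ℝ} (h0 : 0 ≤ x) (h1 : x ≤ 1) : AbsolutelyContinuousOnInterval cd 0 x := by
  have h2 := (gg_int_sub h0 h1).absolutelyContinuousOnInterval_intervalIntegral
    (c := 0) (Set.left_mem_uIcc)
  have h3 := h2.const_mul (1 / BB)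
  have e : cd = fun x => 1 / BB * ∫ u in (0:ℝ)..x, gg u := by
    funext y
    rw [cd_eq]
    ring
  rw [e]
  exact h3

theorem cd_cont : ContinuousOn cd (Set.Icc 0 1) := by
  have h := (cd_ac zero_le_one le_rfl).continuousOn
  rwa [Set.uIcc_of_le zero_le_one] at h

theorem cd_deriv {u : ℝ} (h0 : 0 < u) (h1 : u < 1) : HasDerivAt cd (gg u / BB) u := by
  have hg : ContinuousAt gg u := by
    unfold gg
    apply ContinuousAt.mul
    · exact Real.continuousAt_rpow_const _ _ (Or.inl h0.ne')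
    · apply ContinuousAt.rpow_const (by fun_prop)
      left
      linarith
  have hmeas : StronglyMeasurableAtFilter gg (𝓝 u) := by
    have h : Measurable gg := by unfold gg; fun_prop
    exact h.stronglyMeasurable.stronglyMeasurableAtFilter
  have h2 := intervalIntegral.integral_hasDerivAt_right (gg_int_sub h0.le h1.le) hmeas hg
  exact h2.div_const BB

/-- The density. -/
theorem dens {G : ℝ → ℝ} {c C : ℝ} (hc : 0 < c) (hcC : c ≤ C)
    (hG : ∀ x y : ℝ, 0 ≤ x → x < y → y < 1 → c * (cd y - cd x) ≤ G y - G x ∧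
      G y - G x ≤ C * (cd y - cd x)) :
    ∃ ρ : ℝ → ℝ, Measurable ρ ∧ (∀ u ∈ Set.Ioo (0:ℝ) 1, c * (gg u / BB) ≤ ρ u ∧
      ρ u ≤ C * (gg u / BB)) ∧ ∀ x : ℝ, 0 ≤ x → x < 1 → G x - G 0 = ∫ u in (0:ℝ)..x, ρ u := by
  have hB := BB_pos
  have hggm : Measurable gg := by unfold gg; fun_prop
  refine ⟨fun u => max (c * (gg u / BB)) (min (C * (gg u / BB)) (deriv G u)), ?_, ?_, ?_⟩
  · have := measurable_deriv G
    fun_prop
  · intro u hu
    refine ⟨le_max_left _ _, max_le ?_ (min_le_left _ _)⟩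
    exact mul_le_mul_of_nonneg_right hcC (div_nonneg (gg_pos hu.1 hu.2).le hB.le)
  · intro x hx0 hx1
    have hGd : ∀ y z : ℝ, y ∈ Set.Icc 0 x → z ∈ Set.Icc 0 x → dist (G y) (G z) ≤
        C * dist (cd y) (cd z) := by
      have key : ∀ y z : ℝ, y ∈ Set.Icc 0 x → z ∈ Set.Icc 0 x → y < z → |G y - G z| ≤
          C * |cd y - cd z| := by
        intro y z hy hz hyz
        have h1 := hG y z hy.1 hyz (lt_of_le_of_lt hz.2 hx1)
        have h2 : cd y ≤ cd z := cd_mono ⟨hy.1, hy.2.trans hx1.le⟩ ⟨hz.1, hz.2.trans hx1.le⟩ hyz.le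
        have h3 : 0 ≤ G z - G y := (mul_nonneg hc.le (by linarith)).trans h1.1
        rw [abs_sub_comm, abs_of_nonneg h3, abs_sub_comm, abs_of_nonneg (by linarith)]
        exact h1.2
      intro y z hy hz
      rw [Real.dist_eq, Real.dist_eq]
      rcases lt_trichotomy y z with h | h | h
      · exact key y z hy hz h
      · rw [h]; simp
      · rw [abs_sub_comm (G y), abs_sub_comm (cd y)]
        exact key z y hz hy h
    have hC : 0 < C := lt_of_lt_of_le hc hcC
    have hac : AbsolutelyContinuousOnInterval G 0 x := by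
      rw [absolutelyContinuousOnInterval_iff]
      intro ε hε
      obtain ⟨δ, hδ, h1⟩ := (absolutelyContinuousOnInterval_iff _ _ _).1 (cd_ac hx0 hx1.le)
        (ε / C) (by positivity)
      refine ⟨δ, hδ, fun E hE hE2 => ?_⟩
      have h2 := h1 E hE hE2
      have h3 : ∑ i ∈ Finset.range E.1, dist (G (E.2 i).1) (G (E.2 i).2) ≤
          ∑ i ∈ Finset.range E.1, C * dist (cd (E.2 i).1) (cd (E.2 i).2) := by
        apply Finset.sum_le_sum
        intro i hi
        have h4 := hE.1 i hi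
        rw [Set.uIcc_of_le hx0] at h4
        exact hGd _ _ h4.1 h4.2
      rw [← Finset.mul_sum] at h3
      rw [lt_div_iff₀ hC] at h2
      linarith
    rw [← hac.integral_deriv_eq_sub]
    apply intervalIntegral.integral_congr_ae
    have h1x : ∀ᵐ u : ℝ, u ≠ x := by
      have : volume ({x} : Set ℝ) = 0 := by simp
      exact compl_mem_ae_iff.2 this
    filter_upwards [hac.ae_differentiableAt, h1x] with u hu hux huI
    rw [Set.uIoc_of_le hx0] at huI
    have hd : DifferentiableAt ℝ G u := hu (by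
      rw [Set.uIcc_of_le hx0]; exact ⟨huI.1.le, huI.2⟩)
    have hu0 : 0 < u := huI.1
    have hu1 : u < 1 := lt_of_le_of_lt huI.2 hx1
    have hcdu := cd_deriv hu0 hu1
    have hmem : Set.Ioo (0:ℝ) 1 ∈ 𝓝 u := Ioo_mem_nhds hu0 hu1
    have m1 : MonotoneOn (fun y => G y - c * cd y) (Set.Ioo 0 1) := by
      intro y hy z hz hyz
      rcases hyz.eq_or_lt with h | h
      · rw [h]
      · have := (hG y z hy.1.le h hz.2).1
        simp only
        linarith
    have m2 : MonotoneOn (fun y => C * cd y - G y) (Set.Ioo 0 1) := by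
      intro y hy z hz hyz
      rcases hyz.eq_or_lt with h | h
      · rw [h]
      · have := (hG y z hy.1.le h hz.2).2
        simp only
        linarith
    have d1 : HasDerivAt (fun y => G y - c * cd y) (deriv G u - c * (gg u / BB)) u :=
      hd.hasDerivAt.sub (hcdu.const_mul c)
    have d2 : HasDerivAt (fun y => C * cd y - G y) (C * (gg u / BB) - deriv G u) u :=
      (hcdu.const_mul C).sub hd.hasDerivAt
    have n1 := m1.derivWithin_nonneg (x := u)
    have n2 := m2.derivWithin_nonneg (x := u)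
    rw [derivWithin_of_mem_nhds hmem, d1.deriv] at n1
    rw [derivWithin_of_mem_nhds hmem, d2.deriv] at n2
    rw [min_eq_right (by linarith), max_eq_right (by linarith)]

/-- **Subsequential limits.** -/
theorem sub_lim {F : ℕ → ℝ → ℝ} (h0 : ∀ n b, 0 ≤ F n b) (h1 : ∀ n b, F n b ≤ 1) {a c C : ℝ}
    (ha : 0 < a) (hc : 0 < c) (hcC : c ≤ C)
    (hinc : ∀ b b' : ℝ, 0 ≤ b → b < b' → ∀ᶠ n in atTop,
      c * (cd (b' / (a + b')) - cd (b / (a + b))) ≤ F n b' - F n b ∧
      F n b' - F n b ≤ C * (cd (b' / (a + b')) - cd (b / (a + b))))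
    (hz : Tendsto (fun n => F n 0) atTop (𝓝 0)) {φ : ℕ → ℕ} (hφ : StrictMono φ) :
    ∃ ψ : ℕ → ℕ, StrictMono ψ ∧ ∃ ρ : ℝ → ℝ, Measurable ρ ∧
      (∀ u ∈ Set.Ioo (0:ℝ) 1, c * (gg u / BB) ≤ ρ u ∧ ρ u ≤ C * (gg u / BB)) ∧
      ∀ b : ℝ, 0 ≤ b → Tendsto (fun j => F (φ (ψ j)) b) atTop
        (𝓝 (∫ u in (0:ℝ)..(b / (a + b)), ρ u)) := by
  have hC : 0 < C := lt_of_lt_of_le hc hcC
  obtain ⟨ψ, hψ, hq⟩ := rat_subseq (fun n b => F (φ n) b) (fun n b => h0 _ b) (fun n b => h1 _ b)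
  have hr0 : ∀ b : ℝ, 0 ≤ b → 0 ≤ b / (a + b) := fun b hb => by positivity
  have hr1 : ∀ b : ℝ, 0 ≤ b → b / (a + b) < 1 := by
    intro b hb
    rw [div_lt_one (by linarith)]
    linarith
  have hrm : ∀ b b' : ℝ, 0 ≤ b → b ≤ b' → b / (a + b) ≤ b' / (a + b') := by
    intro b b' hb hbb
    rw [div_le_div_iff₀ (by linarith) (by linarith)]
    nlinarith
  have hHc : ContinuousOn (fun b => cd (b / (a + b))) (Set.Ici 0) := by
    apply cd_cont.comp
    · apply ContinuousOn.div (by fun_prop) (by fun_prop)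
      intro b hb
      have : (0:ℝ) ≤ b := hb
      linarith
    · intro b hb
      exact ⟨hr0 b hb, (hr1 b hb).le⟩
  have hHm : MonotoneOn (fun b => cd (b / (a + b))) (Set.Ici 0) := by
    intro b hb b' hb' hbb
    exact cd_mono ⟨hr0 b hb, (hr1 b hb).le⟩ ⟨hr0 b' hb', (hr1 b' hb').le⟩ (hrm b b' hb hbb)
  have hinc' : ∀ b b' : ℝ, 0 ≤ b → b < b' → ∀ᶠ j in atTop,
      c * (cd (b' / (a + b')) - cd (b / (a + b))) ≤ F (φ (ψ j)) b' - F (φ (ψ j)) b ∧
      F (φ (ψ j)) b' - F (φ (ψ j)) b ≤ C * (cd (b' / (a + b')) - cd (b / (a + b))) := by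
    intro b b' hb hbb
    exact (hφ.comp hψ).tendsto_atTop.eventually (hinc b b' hb hbb)
  have hall : ∀ b : ℝ, ∃ l : ℝ, 0 ≤ b → Tendsto (fun j => F (φ (ψ j)) b) atTop (𝓝 l) := by
    intro b
    by_cases hb : 0 ≤ b
    · obtain ⟨l, hl⟩ := all_conv (F := fun j b => F (φ (ψ j)) b) hc hC hHc hHm hinc' hq hb
      exact ⟨l, fun _ => hl⟩
    · exact ⟨0, fun h => absurd h hb⟩
  choose L hL using hall
  have hL0 : L 0 = 0 := by
    have h2 : Tendsto (fun j => F (φ (ψ j)) 0) atTop (𝓝 0) :=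
      hz.comp (hφ.comp hψ).tendsto_atTop
    exact tendsto_nhds_unique (hL 0 le_rfl) h2
  have hLinc : ∀ b b' : ℝ, 0 ≤ b → b < b' →
      c * (cd (b' / (a + b')) - cd (b / (a + b))) ≤ L b' - L b ∧
      L b' - L b ≤ C * (cd (b' / (a + b')) - cd (b / (a + b))) := by
    intro b b' hb hbb
    have h2 := (hL b' (hb.trans hbb.le)).sub (hL b hb)
    exact ⟨ge_of_tendsto h2 ((hinc' b b' hb hbb).mono fun _ h => h.1),
      le_of_tendsto h2 ((hinc' b b' hb hbb).mono fun _ h => h.2)⟩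
  obtain ⟨ρ, hρm, hρ, hint⟩ := dens (G := fun x => L (a * x / (1 - x))) hc hcC (by
    intro x y hx hxy hy
    have hx1 : 0 < 1 - x := by linarith
    have hy1 : 0 < 1 - y := by linarith
    have e1 : ∀ x : ℝ, 0 ≤ x → x < 1 → (a * x / (1 - x)) / (a + a * x / (1 - x)) = x := by
      intro x hx hx1
      have h1 : 1 - x ≠ 0 := by linarith
      have h2 : a + a * x / (1 - x) = a / (1 - x) := by field_simp; ring
      rw [h2]
      field_simp
    have h3 := hLinc (a * x / (1 - x)) (a * y / (1 - y)) (by positivity) (by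
      rw [div_lt_div_iff₀ hx1 hy1]
      nlinarith)
    rw [e1 x hx (by linarith), e1 y (by linarith) hy] at h3
    exact h3)
  refine ⟨ψ, hψ, ρ, hρm, hρ, fun b hb => ?_⟩
  have h2 := hint (b / (a + b)) (hr0 b hb) (hr1 b hb)
  have e2 : a * (b / (a + b)) / (1 - b / (a + b)) = b := by
    have h3 : a + b ≠ 0 := by linarith
    have h4 : 1 - b / (a + b) = a / (a + b) := by field_simp; ring
    rw [h4]
    field_simp
  simp only [mul_zero, zero_div] at h2
  rw [e2, hL0, sub_zero] at h2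
  rw [← h2]
  exact hL b hb

end Pool.Agent.V11321.LL
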